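import Pool.Agent.Lib.UDGClique.Final

/-! The bound `O(n^(1/3) log² n)` for all unit disk graphs as a corollary (module of `UDGClique`). -/

namespace UDGCube

theorem main_all {n c : ℕ} (hn : 4 * n ≤ c ^ 3) (p : Fin n → EuclideanSpace ℝ (Fin 2)) :
    ∃ lab : Fin n → List Bool,
      (∀ v, (lab v).length ≤
        3000000 * c * (Nat.log 2 c + 1) ^ 2 + 54 * (Nat.log 2 n + 1)) ∧
      ∀ u v, (decodeW (lab u) (lab v) = true ↔ dist (p u) (p v) ≤ 1) :=
  main_clique p (fun S _ => by simpa using Finset.card_le_univ S) hn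

end UDGCube
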