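import Pool.Agent.Lib.UDGClique.Defs

/-! Cells (module of `UDGClique`). -/

namespace UDGCube

private theorem cells_dist (x y : EuclideanSpace ℝ (Fin 2)) :
    dist x y = √((x 0 - y 0) ^ 2 + (x 1 - y 1) ^ 2) := by
  rw [EuclideanSpace.dist_eq, Fin.sum_univ_two, Real.dist_eq, Real.dist_eq, sq_abs, sq_abs]

/-- The four quarters of a cell are cliques. -/
theorem cell_card {n w : ℕ} (p : Fin n → EuclideanSpace ℝ (Fin 2))
    (hw : ∀ S : Finset (Fin n), (∀ u ∈ S, ∀ v ∈ S, dist (p u) (p v) ≤ 1) → S.card ≤ w) (z : ℤ × ℤ) :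
    (Finset.univ.filter fun v => cell (p v) = z).card ≤ 4 * w := by
  classical
  let f : Fin n → Bool × Bool := fun v =>
    (decide (p v 0 - (z.1 : ℝ) < 1 / 2), decide (p v 1 - (z.2 : ℝ) < 1 / 2))
  have h1 := Finset.card_le_mul_card_image (f := f)
    (Finset.univ.filter fun v => cell (p v) = z) w (by
      intro a _
      apply hw
      intro u hu v hv
      rw [Finset.mem_filter, Finset.mem_filter] at hu hv
      obtain ⟨⟨-, hu1⟩, hu2⟩ := hu
      obtain ⟨⟨-, hv1⟩, hv2⟩ := hv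
      have hfu : f u = f v := by rw [hu2, hv2]
      have e1 : decide (p u 0 - (z.1 : ℝ) < 1 / 2) = decide (p v 0 - (z.1 : ℝ) < 1 / 2) :=
        congrArg Prod.fst hfu
      have e2 : decide (p u 1 - (z.2 : ℝ) < 1 / 2) = decide (p v 1 - (z.2 : ℝ) < 1 / 2) :=
        congrArg Prod.snd hfu
      have e1' : (p u 0 - (z.1 : ℝ) < 1 / 2) ↔ (p v 0 - (z.1 : ℝ) < 1 / 2) := decide_eq_decide.1 e1
      have e2' : (p u 1 - (z.2 : ℝ) < 1 / 2) ↔ (p v 1 - (z.2 : ℝ) < 1 / 2) := decide_eq_decide.1 e2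
      have fu0 : ⌊p u 0⌋ = z.1 := congrArg Prod.fst hu1
      have fu1 : ⌊p u 1⌋ = z.2 := congrArg Prod.snd hu1
      have fv0 : ⌊p v 0⌋ = z.1 := congrArg Prod.fst hv1
      have fv1 : ⌊p v 1⌋ = z.2 := congrArg Prod.snd hv1
      rw [Int.floor_eq_iff] at fu0 fu1 fv0 fv1
      have a0 : |p u 0 - p v 0| ≤ 1 / 2 := by
        rw [abs_le]
        by_cases h : p u 0 - (z.1 : ℝ) < 1 / 2
        · have h' := e1'.1 h
          constructor <;> linarith [fu0.1, fu0.2, fv0.1, fv0.2]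
        · have h' : ¬ (p v 0 - (z.1 : ℝ) < 1 / 2) := fun h2 => h (e1'.2 h2)
          constructor <;> linarith [fu0.1, fu0.2, fv0.1, fv0.2]
      have a1 : |p u 1 - p v 1| ≤ 1 / 2 := by
        rw [abs_le]
        by_cases h : p u 1 - (z.2 : ℝ) < 1 / 2
        · have h' := e2'.1 h
          constructor <;> linarith [fu1.1, fu1.2, fv1.1, fv1.2]
        · have h' : ¬ (p v 1 - (z.2 : ℝ) < 1 / 2) := fun h2 => h (e2'.2 h2)
          constructor <;> linarith [fu1.1, fu1.2, fv1.1, fv1.2]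
      rw [cells_dist, Real.sqrt_le_iff]
      refine ⟨zero_le_one, ?_⟩
      have b0 : (p u 0 - p v 0) ^ 2 ≤ (1 / 2) ^ 2 := by
        rw [← sq_abs]
        exact pow_le_pow_left₀ (abs_nonneg _) a0 2
      have b1 : (p u 1 - p v 1) ^ 2 ≤ (1 / 2) ^ 2 := by
        rw [← sq_abs]
        exact pow_le_pow_left₀ (abs_nonneg _) a1 2
      linarith)
  have h2 : ((Finset.univ.filter fun v => cell (p v) = z).image f).card ≤ 4 := by
    refine le_trans (Finset.card_le_univ _) ?_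
    rw [Fintype.card_prod, Fintype.card_bool]
  calc (Finset.univ.filter fun v => cell (p v) = z).card
      ≤ w * ((Finset.univ.filter fun v => cell (p v) = z).image f).card := h1
    _ ≤ w * 4 := Nat.mul_le_mul_left _ h2
    _ = 4 * w := Nat.mul_comm _ _

/-- Points of distance at most `1` are in neighbouring cells. -/
theorem near_cell (x y : EuclideanSpace ℝ (Fin 2)) (h : dist x y ≤ 1) :
    ∃ j < 9, cell y = nb (cell x) j := by
  have key : ∀ i : Fin 2, |x i - y i| ≤ 1 := by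
    intro i
    have h1 : dist (x i) (y i) ≤ dist x y := by
      rw [cells_dist, Real.dist_eq]
      apply Real.le_sqrt_of_sq_le
      rw [sq_abs]
      fin_cases i
      · show (x 0 - y 0) ^ 2 ≤ _
        nlinarith [sq_nonneg (x 1 - y 1)]
      · show (x 1 - y 1) ^ 2 ≤ _
        nlinarith [sq_nonneg (x 0 - y 0)]
    rw [Real.dist_eq] at h1
    exact h1.trans h
  have fl : ∀ i : Fin 2, ⌊x i⌋ - 1 ≤ ⌊y i⌋ ∧ ⌊y i⌋ ≤ ⌊x i⌋ + 1 := by
    intro i
    have h1 := abs_le.1 (key i)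
    constructor
    · rw [Int.le_floor]
      push_cast
      linarith [Int.floor_le (x i), h1.2]
    · have h2 : ⌊y i⌋ < ⌊x i⌋ + 1 + 1 := by
        rw [Int.floor_lt]
        push_cast
        linarith [Int.lt_floor_add_one (x i), h1.1]
      omega
  obtain ⟨a1, a2⟩ := fl 0
  obtain ⟨b1, b2⟩ := fl 1
  refine ⟨3 * (⌊y 0⌋ - ⌊x 0⌋ + 1).toNat + (⌊y 1⌋ - ⌊x 1⌋ + 1).toNat, by omega, ?_⟩
  unfold cell nb
  refine Prod.ext ?_ ?_
  · show ⌊y 0⌋ = ⌊x 0⌋ + ((_ / 3 : ℕ) : ℤ) - 1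
    omega
  · show ⌊y 1⌋ = ⌊x 1⌋ + ((_ % 3 : ℕ) : ℤ) - 1
    omega

/-- The `j`-th cell around `z` and the `(8 - j)`-th. -/
theorem nb_flip (z : ℤ × ℤ) (j : ℕ) (hj : j < 9) : nb (nb z j) (8 - j) = z := by
  unfold nb
  refine Prod.ext ?_ ?_
  · show z.1 + ((j / 3 : ℕ) : ℤ) - 1 + (((8 - j) / 3 : ℕ) : ℤ) - 1 = z.1
    omega
  · show z.2 + ((j % 3 : ℕ) : ℤ) - 1 + (((8 - j) % 3 : ℕ) : ℤ) - 1 = z.2
    omega

end UDGCube
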