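import Pool.Agent.Lib.UDGCube.Final

/-!
# Adjacency labels of `O(ω^(1/3) log² ω + log n)` bits for unit disk graphs of clique number `ω`
-/

namespace UDGCube

/-- A bit string is cut into blocks: it is read two bits at a time, `0 b` is a bit `b` of the current
block, `1 0` and `1 1` end the block. -/
def cut : List Bool → List Bool → List (List Bool)
  | false :: b :: t, w => cut t (w ++ [b])
  | true :: _ :: t, w => w :: cut t []
  | _, _ => []

/-- **The decoder.** Both strings are cut into blocks. Blocks `0, …, 8`: the names of the unit cell of
the vertex (block `4`) and of the eight cells around it; blocks `9, …, 17`: one label for `decodeC` for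
each of these cells. If the cell of the second vertex is number `j` around the first vertex, then the
first vertex is in cell number `8 - j` around the second, and `decodeC` is applied to the two labels. -/
def decodeW (s t : List Bool) : Bool :=
  match (List.range 9).find? (fun j => decide ((cut s []).getD j [] = (cut t []).getD 4 [])) with
  | some j => decodeC ((cut s []).getD (9 + j) []) ((cut t []).getD (17 - j) [])
  | none => false

/-- Writing blocks. -/
def glue (A : List (List Bool)) : List Bool :=
  A.flatMap (fun w => w.flatMap (fun b => [false, b]) ++ [true, true])

/-- The unit cell of a point. -/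
noncomputable def cell (x : EuclideanSpace ℝ (Fin 2)) : ℤ × ℤ := (⌊x 0⌋, ⌊x 1⌋)

/-- The `j`-th cell around a cell. -/
def nb (z : ℤ × ℤ) (j : ℕ) : ℤ × ℤ := (z.1 + ((j / 3 : ℕ) : ℤ) - 1, z.2 + ((j % 3 : ℕ) : ℤ) - 1)

end UDGCube
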