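import Pool.Agent.Lib.UDGClique.Defs

/-! Labels for small sets of vertices (module of `UDGClique`). -/

namespace UDGCube

/-- `main` for the points of `S` (numbered by `S.equivFin`), with `2 * c` for `c`. -/
theorem exists_labs {n c : ℕ} (p : Fin n → EuclideanSpace ℝ (Fin 2)) :
    ∃ L : Finset (Fin n) → Fin n → List Bool, ∀ S : Finset (Fin n), S.card ≤ 2 * c ^ 3 →
      (∀ v ∈ S, (L S v).length ≤ 160000 * c * (Nat.log 2 c + 1) ^ 2) ∧
      ∀ u ∈ S, ∀ v ∈ S, (decodeC (L S u) (L S v) = true ↔ dist (p u) (p v) ≤ 1) := by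
  classical
  have key : ∀ S : Finset (Fin n), ∃ l : Fin n → List Bool, S.card ≤ 2 * c ^ 3 →
      (∀ v ∈ S, (l v).length ≤ 160000 * c * (Nat.log 2 c + 1) ^ 2) ∧
      ∀ u ∈ S, ∀ v ∈ S, (decodeC (l u) (l v) = true ↔ dist (p u) (p v) ≤ 1) := by
    intro S
    by_cases hS : S.card ≤ 2 * c ^ 3
    · have hn : S.card ≤ (2 * c) ^ 3 := by
        have h1 : (2 * c) ^ 3 = 8 * c ^ 3 := by ring
        omega
      obtain ⟨lab, h1, h2⟩ := main hn (fun i => p (S.equivFin.symm i))
      refine ⟨fun v => if h : v ∈ S then lab (S.equivFin ⟨v, h⟩) else [], fun _ => ⟨?_, ?_⟩⟩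
      · intro v hv
        simp only [hv, dif_pos]
        refine (h1 _).trans ?_
        have hL : Nat.log 2 S.card + 1 ≤ 4 * (Nat.log 2 c + 1) := by
          have hc1 : c < 2 ^ (Nat.log 2 c + 1) := Nat.lt_pow_succ_log_self (by norm_num) c
          have hc3 : c ^ 3 < (2 ^ (Nat.log 2 c + 1)) ^ 3 := Nat.pow_lt_pow_left hc1 (by norm_num)
          have h3 : S.card < 2 ^ (3 * (Nat.log 2 c + 1) + 1) := by
            have h4 : 2 ^ (3 * (Nat.log 2 c + 1) + 1) = 2 * (2 ^ (Nat.log 2 c + 1)) ^ 3 := by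
              rw [← pow_mul, pow_succ, mul_comm (Nat.log 2 c + 1) 3]
              ring
            omega
          have h5 : Nat.log 2 S.card < 3 * (Nat.log 2 c + 1) + 1 := by
            rcases Nat.eq_zero_or_pos S.card with h0 | h0
            · rw [h0, Nat.log_zero_right]
              omega
            · exact Nat.log_lt_of_lt_pow h0.ne' h3
          omega
        calc 5000 * (2 * c) * (Nat.log 2 S.card + 1) ^ 2
            ≤ 5000 * (2 * c) * (4 * (Nat.log 2 c + 1)) ^ 2 :=
              Nat.mul_le_mul_left _ (Nat.pow_le_pow_left hL 2)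
          _ = 160000 * c * (Nat.log 2 c + 1) ^ 2 := by ring
      · intro u hu v hv
        simp only [hu, hv, dif_pos]
        rw [h2]
        simp
    · exact ⟨fun _ => [], fun h => absurd h hS⟩
  choose L hL using key
  exact ⟨L, hL⟩

end UDGCube
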