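import Pool.Agent.Lib.UDGClique.Defs

/-! Names of cells (module of `UDGClique`). -/

namespace UDGCube

private theorem bits_inj' {a b : ℕ} (h : a.bits = b.bits) : a = b := by
  have h1 : Nat.digits 2 a = Nat.digits 2 b := by
    rw [Nat.digits_two_eq_bits, Nat.digits_two_eq_bits, h]
  exact Nat.digits_inj_iff.1 h1

/-- `Nat.bits (i + 1)` for the first `i` with `f i = z`, `[]` if there is none. -/
theorem exists_names {n : ℕ} (f : Fin n → ℤ × ℤ) :
    ∃ nm : ℤ × ℤ → List Bool, (∀ z, (nm z).length ≤ Nat.log 2 n + 1) ∧
      ∀ (v : Fin n) (z : ℤ × ℤ), nm z = nm (f v) → z = f v := by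
  classical
  let nm : ℤ × ℤ → List Bool := fun z =>
    if h : ∃ i, f i = z then Nat.bits (((Classical.choose h : Fin n) : ℕ) + 1) else []
  refine ⟨nm, ?_, ?_⟩
  · intro z
    by_cases h : ∃ i, f i = z
    · have e : nm z = Nat.bits (((Classical.choose h : Fin n) : ℕ) + 1) := dif_pos h
      rw [e, Nat.size_eq_bits_len, Nat.size_le]
      have h1 := (Classical.choose h : Fin n).2
      have h2 := Nat.lt_pow_succ_log_self (b := 2) (by norm_num) n
      omega
    · have e : nm z = [] := dif_neg h
      rw [e]
      simp
  · intro v z hz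
    have h : ∃ i, f i = f v := ⟨v, rfl⟩
    have e : nm (f v) = Nat.bits (((Classical.choose h : Fin n) : ℕ) + 1) := dif_pos h
    by_cases h' : ∃ i, f i = z
    · have e' : nm z = Nat.bits (((Classical.choose h' : Fin n) : ℕ) + 1) := dif_pos h'
      rw [e, e'] at hz
      have h1 := bits_inj' hz
      have h2 : (Classical.choose h' : Fin n) = Classical.choose h := Fin.ext (by omega)
      rw [← Classical.choose_spec h', ← Classical.choose_spec h, h2]
    · have e' : nm z = [] := dif_neg h'
      rw [e, e'] at hz
      have h3 : Nat.bits 0 = Nat.bits (((Classical.choose h : Fin n) : ℕ) + 1) := by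
        rw [← hz]; simp
      have := bits_inj' h3
      omega

end UDGCube
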