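import Pool.Agent.Lib.UDGClique.Defs

/-! Blocks (module of `UDGClique`). -/

namespace UDGCube

private theorem cut_block (w : List Bool) : ∀ (acc t : List Bool),
    cut (w.flatMap (fun b => [false, b]) ++ ([true, true] ++ t)) acc = (acc ++ w) :: cut t [] := by
  induction w with
  | nil =>
    intro acc t
    rw [List.flatMap_nil, List.nil_append, List.append_nil]
    show cut (true :: true :: t) acc = acc :: cut t []
    rw [cut]
  | cons b w ih =>
    intro acc t
    have h : cut ((b :: w).flatMap (fun b => [false, b]) ++ ([true, true] ++ t)) acc =
        cut (w.flatMap (fun b => [false, b]) ++ ([true, true] ++ t)) (acc ++ [b]) := by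
      rw [List.flatMap_cons]
      show cut (false :: b :: (w.flatMap (fun b => [false, b]) ++ ([true, true] ++ t))) acc = _
      rw [cut]
    rw [h, ih, List.append_assoc]
    rfl

theorem cut_glue (A : List (List Bool)) : cut (glue A) [] = A := by
  induction A with
  | nil =>
    show cut [] [] = []
    rw [cut]
    all_goals simp
  | cons w A ih =>
    have h : glue (w :: A) = w.flatMap (fun b => [false, b]) ++ ([true, true] ++ glue A) := by
      unfold glue
      rw [List.flatMap_cons, List.append_assoc]
    rw [h, cut_block, ih, List.nil_append]

theorem glue_length (A : List (List Bool)) :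
    (glue A).length = (A.map fun w => 2 * w.length + 2).sum := by
  induction A with
  | nil => rfl
  | cons w A ih =>
    have h : glue (w :: A) = (w.flatMap (fun b => [false, b]) ++ [true, true]) ++ glue A := by
      unfold glue
      rw [List.flatMap_cons]
    have h2 : ∀ w : List Bool, (w.flatMap (fun b => [false, b])).length = 2 * w.length := by
      intro w
      induction w with
      | nil => rfl
      | cons b w ih =>
        rw [List.flatMap_cons, List.length_append, ih, List.length_cons]
        show 2 + 2 * w.length = 2 * (w.length + 1)
        ring
    rw [h, List.length_append, List.length_append, h2, ih, List.map_cons, List.sum_cons]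
    rfl

end UDGCube
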